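import Pool.Agent.H242P3.Cert

/-!
Facts about three elements of trivial cube in a group satisfying `HP`, read off from the case
trees of `Pool.Agent.H242P3.Cert`.
-/

namespace H242.P3

open H15.TC

variable {G : Type*} [Group G]

/-- the three generators -/
def gn (a b c : G) (i : ℕ) : G := if i = 0 then a else if i = 1 then b else c

theorem gn_cube {a b c : G} (ha : a ^ 3 = 1) (hb : b ^ 3 = 1) (hc : c ^ 3 = 1) (i : ℕ) :
    gn a b c i ^ 3 = 1 := by
  unfold gn
  split_ifs <;> assumption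

/-- `(xy)³ = 1` -/
def p (x y : G) : Prop := (x * y) ^ 3 = 1

/-- `(xy⁻¹)³ = 1` -/
def n (x y : G) : Prop := (x * y⁻¹) ^ 3 = 1

variable (hP : HP G) {a b c : G} (ha : a ^ 3 = 1) (hb : b ^ 3 = 1) (hc : c ^ 3 = 1)

include hP ha hb hc

theorem T1 (h1 : n a b) (h2 : n b c) (h3 : n c a) : p a b ∨ p b c ∨ p c a := by
  unfold p n at *
  obtain ⟨g, hg, h⟩ := sound (gen := gn a b c) hP (gn_cube ha hb hc) okT1
    (by simp [ev, lv, gn, *])
  simp only [gT1, List.mem_cons, List.not_mem_nil, or_false] at hg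
  rcases hg with rfl | rfl | rfl <;> simp [ev, lv, gn] at h <;> simp [h]

section

variable (hab : p a b) (hac : p a c) (hbc : p b c)

include hab hac hbc

theorem C1 : n a b ∨ p c (a * b⁻¹ * a) := by
  unfold p n at *
  obtain ⟨g, hg, h⟩ := sound (gen := gn a b c) hP (gn_cube ha hb hc) okC1
    (by simp [ev, lv, gn, *])
  simp only [gC1, List.mem_cons, List.not_mem_nil, or_false] at hg
  rcases hg with rfl | rfl <;> simp [ev, lv, gn] at h <;> simp [h, mul_assoc]

theorem C2 : n a b ∨ p c (a⁻¹ * b * a) := by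
  unfold p n at *
  obtain ⟨g, hg, h⟩ := sound (gen := gn a b c) hP (gn_cube ha hb hc) okC2
    (by simp [ev, lv, gn, *])
  simp only [gC2, List.mem_cons, List.not_mem_nil, or_false] at hg
  rcases hg with rfl | rfl <;> simp [ev, lv, gn] at h <;> simp [h, mul_assoc]

theorem N1 (h1 : n a c) (h2 : p c⁻¹ (a * b⁻¹ * a)) : n a b ∨ n b c := by
  unfold p n at *
  simp only [mul_assoc] at h2
  obtain ⟨g, hg, h⟩ := sound (gen := gn a b c) hP (gn_cube ha hb hc) okN1
    (by simp [ev, lv, gn, *])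
  simp only [gN1, List.mem_cons, List.not_mem_nil, or_false] at hg
  rcases hg with rfl | rfl <;> simp [ev, lv, gn] at h <;> simp [h]

theorem N2 (h1 : n a c) (h2 : p c⁻¹ (a⁻¹ * b * a)) : n a b ∨ n b c := by
  unfold p n at *
  simp only [mul_assoc] at h2
  obtain ⟨g, hg, h⟩ := sound (gen := gn a b c) hP (gn_cube ha hb hc) okN2
    (by simp [ev, lv, gn, *])
  simp only [gN2, List.mem_cons, List.not_mem_nil, or_false] at hg
  rcases hg with rfl | rfl <;> simp [ev, lv, gn] at h <;> simp [h]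

theorem N3 (h1 : n b c) (h2 : p c⁻¹ (a⁻¹ * b * a)) :
    n a b ∨ p b⁻¹ (a⁻¹ * b * a) ∨ n a c := by
  unfold p n at *
  simp only [mul_assoc] at h2
  obtain ⟨g, hg, h⟩ := sound (gen := gn a b c) hP (gn_cube ha hb hc) okN3
    (by simp [ev, lv, gn, *])
  simp only [gN3, List.mem_cons, List.not_mem_nil, or_false] at hg
  rcases hg with rfl | rfl | rfl <;> simp [ev, lv, gn] at h <;> simp [h, mul_assoc]

theorem N4 (h1 : n b c) (h2 : p c⁻¹ (a * b⁻¹ * a)) :
    n a b ∨ p b⁻¹ (a * b⁻¹ * a) ∨ n a c := by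
  unfold p n at *
  simp only [mul_assoc] at h2
  obtain ⟨g, hg, h⟩ := sound (gen := gn a b c) hP (gn_cube ha hb hc) okN4
    (by simp [ev, lv, gn, *])
  simp only [gN4, List.mem_cons, List.not_mem_nil, or_false] at hg
  rcases hg with rfl | rfl | rfl <;> simp [ev, lv, gn] at h <;> simp [h, mul_assoc]

theorem F3a (h1 : n a c) (h2 : n b c) : n a b ∨ p (a * c) b := by
  unfold p n at *
  obtain ⟨g, hg, h⟩ := sound (gen := gn a b c) hP (gn_cube ha hb hc) okF3a
    (by simp [ev, lv, gn, *])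
  simp only [gF3a, List.mem_cons, List.not_mem_nil, or_false] at hg
  rcases hg with rfl | rfl <;> simp [ev, lv, gn] at h <;> simp [h, mul_assoc]

theorem F3b (h1 : n a c) (h2 : n b c) (h3 : n (a * c) b) : n a b := by
  unfold p n at *
  simp only [mul_assoc] at h3
  obtain ⟨g, hg, h⟩ := sound (gen := gn a b c) hP (gn_cube ha hb hc) okF3b
    (by simp [ev, lv, gn, *])
  simp only [gF3b, List.mem_cons, List.not_mem_nil, or_false] at hg
  rcases hg with rfl; simp [ev, lv, gn] at h; simp [h]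

theorem F4a (h1 : n a c) : n a b ∨ n b c ∨ n (a * c) b := by
  unfold p n at *
  obtain ⟨g, hg, h⟩ := sound (gen := gn a b c) hP (gn_cube ha hb hc) okF4a
    (by simp [ev, lv, gn, *])
  simp only [gF4a, List.mem_cons, List.not_mem_nil, or_false] at hg
  rcases hg with rfl | rfl | rfl <;> simp [ev, lv, gn] at h <;> simp [h, mul_assoc]

theorem F4b (h1 : n a c) (h2 : p (a * c) b) : n a b ∨ n b c := by
  unfold p n at *
  simp only [mul_assoc] at h2
  obtain ⟨g, hg, h⟩ := sound (gen := gn a b c) hP (gn_cube ha hb hc) okF4b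
    (by simp [ev, lv, gn, *])
  simp only [gF4b, List.mem_cons, List.not_mem_nil, or_false] at hg
  rcases hg with rfl | rfl <;> simp [ev, lv, gn] at h <;> simp [h]

theorem F5a (h1 : n a c) : n a b ∨ n b c ∨ p (a⁻¹ * c) b := by
  unfold p n at *
  obtain ⟨g, hg, h⟩ := sound (gen := gn a b c) hP (gn_cube ha hb hc) okF5a
    (by simp [ev, lv, gn, *])
  simp only [gF5a, List.mem_cons, List.not_mem_nil, or_false] at hg
  rcases hg with rfl | rfl | rfl <;> simp [ev, lv, gn] at h <;> simp [h, mul_assoc]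

theorem F5b (h1 : n a c) : n a b ∨ n b c ∨ n (a⁻¹ * c) b := by
  unfold p n at *
  obtain ⟨g, hg, h⟩ := sound (gen := gn a b c) hP (gn_cube ha hb hc) okF5b
    (by simp [ev, lv, gn, *])
  simp only [gF5b, List.mem_cons, List.not_mem_nil, or_false] at hg
  rcases hg with rfl | rfl | rfl <;> simp [ev, lv, gn] at h <;> simp [h, mul_assoc]

theorem H1 : n a b ∨ n b c ∨ (a * b⁻¹ * c) ^ 3 = 1 := by
  unfold p n at *
  obtain ⟨g, hg, h⟩ := sound (gen := gn a b c) hP (gn_cube ha hb hc) okH1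
    (by simp [ev, lv, gn, *])
  simp only [gH1, List.mem_cons, List.not_mem_nil, or_false] at hg
  rcases hg with rfl | rfl | rfl <;> simp [ev, lv, gn] at h <;> simp [h, mul_assoc]

theorem H2 : n a b ∨ n b c ∨ p (a * b⁻¹ * c) b := by
  unfold p n at *
  obtain ⟨g, hg, h⟩ := sound (gen := gn a b c) hP (gn_cube ha hb hc) okH2
    (by simp [ev, lv, gn, *])
  simp only [gH2, List.mem_cons, List.not_mem_nil, or_false] at hg
  rcases hg with rfl | rfl | rfl <;> simp [ev, lv, gn] at h <;> simp [h, mul_assoc]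

theorem H3 : n a b ∨ n b c ∨ p (a * b⁻¹ * c) a := by
  unfold p n at *
  obtain ⟨g, hg, h⟩ := sound (gen := gn a b c) hP (gn_cube ha hb hc) okH3
    (by simp [ev, lv, gn, *])
  simp only [gH3, List.mem_cons, List.not_mem_nil, or_false] at hg
  rcases hg with rfl | rfl | rfl <;> simp [ev, lv, gn] at h <;> simp [h, mul_assoc]

theorem AN (h1 : n a b) (h2 : n a c) (h3 : n b c) : (a * b * c) ^ 3 = 1 := by
  unfold p n at *
  obtain ⟨g, hg, h⟩ := sound (gen := gn a b c) hP (gn_cube ha hb hc) okAN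
    (by simp [ev, lv, gn, *])
  simp only [gAN, List.mem_cons, List.not_mem_nil, or_false] at hg
  rcases hg with rfl; simp [ev, lv, gn] at h; simp [h, mul_assoc]

end

omit hc in
theorem W (hab : p a b) (h1 : p b⁻¹ (a * b⁻¹ * a)) (h2 : p b⁻¹ (a⁻¹ * b * a)) : n a b := by
  unfold p n at *
  simp only [mul_assoc] at h1 h2
  obtain ⟨g, hg, h⟩ := sound (gen := gn a b 1) hP (gn_cube ha hb (by simp)) okW
    (by simp [ev, lv, gn, *])
  simp only [gW, List.mem_cons, List.not_mem_nil, or_false] at hg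
  rcases hg with rfl; simp [ev, lv, gn] at h; simp [h]

end H242.P3
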