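import Pool.Agent.H242P3.Struct
import Pool.Agent.H15R2.Main

/-!
The subgroup generated by the elements of trivial cube in a group satisfying `HP`:
the normal subgroup `S` of index dividing 3, and local finiteness.
-/

universe u

namespace H242.P3

open Subgroup

/-! ### groups in which every element commutes with its conjugates -/

theorem engel_fin (k : ℕ) : ∀ (K : Type u) [Group K], (∀ s r : K, Commute s (r⁻¹ * s * r)) →
    (∀ g : K, IsOfFinOrder g) → (∃ S : Finset K, S.card ≤ k ∧ closure (S : Set K) = ⊤) →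
    Finite K := by
  induction k with
  | zero =>
    rintro K _ _ _ ⟨S, hS, hS'⟩
    have h0 : S = ∅ := by
      rw [← Finset.card_eq_zero]; omega
    rw [h0] at hS'
    simp only [Finset.coe_empty, Subgroup.closure_empty] at hS'
    have : Subsingleton K := by
      refine ⟨fun a b => ?_⟩
      have ha : a ∈ (⊥ : Subgroup K) := by rw [hS']; trivial
      have hb : b ∈ (⊥ : Subgroup K) := by rw [hS']; trivial
      rw [mem_bot.mp ha, mem_bot.mp hb]
    infer_instance
  | succ k ih =>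
    rintro K _ hE hT ⟨S, hS, hS'⟩
    classical
    have hfgK : Group.FG K := Group.fg_def.mpr ⟨S, hS'⟩
    by_cases h0 : S = ∅
    · exact ih K hE hT ⟨S, by rw [h0]; simp, hS'⟩
    obtain ⟨x, hx⟩ := Finset.nonempty_iff_ne_empty.mpr h0
    set A : Subgroup K := normalClosure {x} with hA
    have hcomm : ∀ y ∈ A, ∀ z ∈ A, y * z = z * y := by
      have hset : ∀ y ∈ Group.conjugatesOfSet ({x} : Set K),
          ∀ z ∈ Group.conjugatesOfSet ({x} : Set K), Commute y z := by
        intro y hy z hz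
        rw [Group.mem_conjugatesOfSet_iff] at hy hz
        obtain ⟨a, ha, hay⟩ := hy
        obtain ⟨b, hb, hbz⟩ := hz
        rw [Set.mem_singleton_iff] at ha hb
        rw [ha] at hay
        rw [hb] at hbz
        obtain ⟨g, hg⟩ := isConj_iff.mp hay
        obtain ⟨h, hh⟩ := isConj_iff.mp hbz
        -- `y = g x g⁻¹`, `z = h x h⁻¹`
        have h1 := hE y (g * h⁻¹)
        have e : (g * h⁻¹)⁻¹ * y * (g * h⁻¹) = z := by
          rw [← hg, ← hh]; group
        rwa [e] at h1
      intro y hy z hz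
      have h1 : y ∈ closure (Group.conjugatesOfSet ({x} : Set K)) := hy
      have h2 : z ∈ closure (Group.conjugatesOfSet ({x} : Set K)) := hz
      refine closure_induction₂ (p := fun y z _ _ => Commute y z) (fun a b ha hb => hset a ha b hb)
        ?_ ?_ ?_ ?_ ?_ ?_ h1 h2
      · intro a _; exact Commute.one_left a
      · intro a _; exact Commute.one_right a
      · intro a b c _ _ _ h3 h4; exact h3.mul_left h4
      · intro a b c _ _ _ h3 h4; exact h3.mul_right h4
      · intro a b _ _ h3; exact h3.inv_left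
      · intro a b _ _ h3; exact h3.inv_right
    have hQ : Finite (K ⧸ A) := by
      refine ih (K ⧸ A) ?_ ?_ ⟨(S.erase x).image (QuotientGroup.mk' A), ?_, ?_⟩
      · intro s r
        obtain ⟨s, rfl⟩ := QuotientGroup.mk'_surjective A s
        obtain ⟨r, rfl⟩ := QuotientGroup.mk'_surjective A r
        have := (hE s r).map (QuotientGroup.mk' A)
        simpa using this
      · intro g
        obtain ⟨g, rfl⟩ := QuotientGroup.mk'_surjective A g
        exact MonoidHom.isOfFinOrder _ (hT g)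
      · refine Finset.card_image_le.trans ?_
        rw [Finset.card_erase_of_mem hx]; omega
      · have h1 : (closure (S : Set K)).map (QuotientGroup.mk' A) = ⊤ := by
          rw [hS', ← MonoidHom.range_eq_map]
          exact MonoidHom.range_eq_top.mpr (QuotientGroup.mk'_surjective A)
        rw [MonoidHom.map_closure] at h1
        rw [eq_top_iff, ← h1, closure_le]
        rintro _ ⟨y, hy, rfl⟩
        by_cases hyx : y = x
        · have : (QuotientGroup.mk' A) y = 1 := by
            rw [QuotientGroup.mk'_apply, QuotientGroup.eq_one_iff, hyx]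
            exact subset_normalClosure rfl
          rw [this]
          exact one_mem _
        · apply Subgroup.subset_closure
          rw [Finset.coe_image]
          exact ⟨y, by simpa using ⟨hy, hyx⟩, rfl⟩
    have hfi : A.FiniteIndex := Subgroup.finiteIndex_of_finite_quotient
    have hAfg : Group.FG A := Subgroup.fg_of_index_ne_zero _
    have hAfin : Finite A := by
      letI : CommGroup A := { (inferInstance : Group A) with
        mul_comm := fun a b => Subtype.ext (hcomm a a.2 b b.2) }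
      refine CommGroup.finite_of_fg_isMulTorsion A ?_
      intro g
      have := hT (g : K)
      exact Submonoid.isOfFinOrder_coe.mp this
    exact H15.Struct.finite_of_index A hfi.index_ne_zero hAfin

theorem engel_fin' (K : Type u) [Group K] (hE : ∀ s r : K, Commute s (r⁻¹ * s * r))
    (hT : ∀ g : K, IsOfFinOrder g) (hfg : Group.FG K) : Finite K := by
  obtain ⟨S, hS⟩ := Group.fg_def.mp hfg
  exact engel_fin S.card K hE hT ⟨S, le_rfl, hS⟩

variable {G : Type u} [Group G] (hP : HP G)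

section

variable {a b : G} (hab : Str a b)

include hP hab

/-- the subgroup `S = a⁻¹ Y` -/
def Ss : Subgroup G where
  carrier := {s | Y a b (a * s)}
  one_mem' := by
    show Y a b (a * 1)
    rw [mul_one]; exact Ya hab
  mul_mem' := by
    intro s t hs ht
    have h := YH hP hab hs (Ya hab) ht
    have e : a * s * a⁻¹ * (a * t) = a * (s * t) := by group
    rw [e] at h
    exact h
  inv_mem' := by
    intro s hs
    have h := YH hP hab (Ya hab) hs (Ya hab)
    have e : a * (a * s)⁻¹ * a = a * s⁻¹ := by group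
    rw [e] at h
    exact h

theorem mem_Ss {s : G} : s ∈ Ss hP hab ↔ Y a b (a * s) := Iff.rfl

omit hP in
theorem aa : a * a = a⁻¹ := by
  rw [eq_inv_iff_mul_eq_one]
  have := hab.ha
  simpa [pow_succ, mul_assoc] using this

theorem Ss_conj {s : G} (hs : s ∈ Ss hP hab) : a⁻¹ * s * a ∈ Ss hP hab := by
  rw [mem_Ss] at *
  have h := Yconj1 hP hab hs
  have e : a⁻¹ * (a * s) * a = a * (a⁻¹ * s * a) := by group
  rwa [e] at h

theorem Ss_conj' {s : G} (hs : s ∈ Ss hP hab) : a * s * a⁻¹ ∈ Ss hP hab := by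
  have h := Ss_conj hP hab (Ss_conj hP hab hs)
  have e : a⁻¹ * (a⁻¹ * s * a) * a = (a * a)⁻¹ * s * (a * a) := by group
  rwa [e, aa hab, inv_inv] at h

theorem a_norm : a ∈ normalizer (Ss hP hab : Set G) := by
  rw [Subgroup.mem_normalizer_iff]
  intro h
  constructor
  · exact Ss_conj' hP hab
  · intro h1
    have h2 := Ss_conj hP hab h1
    have e : a⁻¹ * (a * h * a⁻¹) * a = h := by group
    rwa [e] at h2

theorem Ss_zpow {s : G} (hs : s ∈ Ss hP hab) (l : ℤ) : a ^ l * s * (a ^ l)⁻¹ ∈ Ss hP hab := by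
  have h := zpow_mem (a_norm hP hab) l
  exact (Subgroup.mem_normalizer_iff.mp h s).mp hs

/-- elements of `Y` are the elements `a s` -/
theorem Y_iff {x : G} : Y a b x ↔ a⁻¹ * x ∈ Ss hP hab := by
  rw [mem_Ss, mul_inv_cancel_left]

theorem Y_mul {x s : G} (hx : Y a b x) (hs : s ∈ Ss hP hab) : Y a b (x * s) := by
  rw [Y_iff hP hab] at *
  rw [← mul_assoc]
  exact mul_mem hx hs

theorem Y_mul' {x s : G} (hx : Y a b x) (hs : s ∈ Ss hP hab) : Y a b (s * x) := by
  rw [Y_iff hP hab] at *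
  have e : a⁻¹ * (s * x) = a⁻¹ * s * a * (a⁻¹ * x) := by group
  rw [e]
  exact mul_mem (Ss_conj hP hab hs) hx

theorem uvs {x s : G} (hx : Y a b x) (hs : s ∈ Ss hP hab) :
    (x * s * x⁻¹) * (x⁻¹ * s * x) * s = 1 ∧ (x⁻¹ * s * x) * (x * s * x⁻¹) * s = 1 := by
  have hx3 : x ^ 3 = 1 := hx.1
  have e1 : x⁻¹ * x⁻¹ = x := by
    have : x⁻¹ * x⁻¹ = x⁻¹ ^ 3 * x := by simp only [pow_succ, pow_zero]; group
    rw [this, cube_inv hx3, one_mul]
  have e2 : x * x = x⁻¹ := by
    rw [eq_inv_iff_mul_eq_one]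
    simpa [pow_succ, mul_assoc] using hx3
  constructor
  · have h1 := (Y_mul hP hab hx hs).1
    have h2 : (x * s * x⁻¹) * (x⁻¹ * s * x) * s = x * s * (x⁻¹ * x⁻¹) * s * x * s := by group
    rw [h2, e1, ← h1]
    simp only [pow_succ, pow_zero]; group
  · have h1 := (Y_mul' hP hab hx (inv_mem hs)).1
    have h3 : (x⁻¹ * s) ^ 3 = 1 := by
      have := cube_inv h1
      rwa [mul_inv_rev, inv_inv] at this
    have h2 : (x⁻¹ * s * x) * (x * s * x⁻¹) * s = x⁻¹ * s * (x * x) * s * x⁻¹ * s := by group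
    rw [h2, e2, ← h3]
    simp only [pow_succ, pow_zero]; group

theorem comm1 {x s : G} (hx : Y a b x) (hs : s ∈ Ss hP hab) : Commute s (x⁻¹ * s * x) := by
  obtain ⟨h1, h2⟩ := uvs hP hab hx hs
  set u := x * s * x⁻¹
  set v := x⁻¹ * s * x
  have h3 : u * v = v * u := by
    have : u * v * s = v * u * s := by rw [h1, h2]
    exact mul_right_cancel this
  have h4 : s⁻¹ = u * v := by
    have : u * v = u * v * s * s⁻¹ := by group
    rw [this, h1, one_mul]
  have h5 : Commute s⁻¹ v := by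
    rw [h4]
    show u * v * v = v * (u * v)
    rw [h3, mul_assoc, h3, mul_assoc]
  exact Commute.inv_left_iff.mp h5

theorem comm1' {x s : G} (hx : Y a b x) (hs : s ∈ Ss hP hab) : Commute s (x * s * x⁻¹) := by
  have h := comm1 hP hab hx hs
  have h2 : Commute (x * s * x⁻¹) (x * (x⁻¹ * s * x) * x⁻¹) := by
    show x * s * x⁻¹ * (x * (x⁻¹ * s * x) * x⁻¹) = x * (x⁻¹ * s * x) * x⁻¹ * (x * s * x⁻¹)
    have e1 : x * s * x⁻¹ * (x * (x⁻¹ * s * x) * x⁻¹) = x * (s * (x⁻¹ * s * x)) * x⁻¹ := by group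
    rw [e1, h.eq]; group
  have e : x * (x⁻¹ * s * x) * x⁻¹ = s := by group
  rw [e] at h2
  exact h2.symm

omit hP hab in
theorem comm_conj {s t r : G} (h : Commute s t) : Commute (r⁻¹ * s * r) (r⁻¹ * t * r) := by
  show r⁻¹ * s * r * (r⁻¹ * t * r) = r⁻¹ * t * r * (r⁻¹ * s * r)
  have e1 : r⁻¹ * s * r * (r⁻¹ * t * r) = r⁻¹ * (s * t) * r := by group
  rw [e1, h.eq]; group

theorem comm2 {r s : G} (hr : r ∈ Ss hP hab) (hs : s ∈ Ss hP hab) :
    Commute s (r⁻¹ * s * r) := by
  -- `r⁻¹ s r` commutes with `a⁻¹ s a`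
  have hA : Commute (r⁻¹ * s * r) (a⁻¹ * s * a) := by
    have h1 := comm1 hP hab (Y_mul hP hab (Ya hab) (inv_mem hr)) hs
    have h2 := comm_conj (r := r) h1
    have e : r⁻¹ * ((a * r⁻¹)⁻¹ * s * (a * r⁻¹)) * r = a⁻¹ * s * a := by group
    rwa [e] at h2
  have hB : Commute (r⁻¹ * s * r) (a * s * a⁻¹) := by
    have h1 := comm1' hP hab (Y_mul' hP hab (Ya hab) hr) hs
    have h2 := comm_conj (r := r) h1
    have e : r⁻¹ * (r * a * s * (r * a)⁻¹) * r = a * s * a⁻¹ := by group
    rwa [e] at h2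
  have h1 := (uvs hP hab (Ya hab) hs).1
  have h4 : s⁻¹ = (a * s * a⁻¹) * (a⁻¹ * s * a) := by
    have : (a * s * a⁻¹) * (a⁻¹ * s * a) = (a * s * a⁻¹) * (a⁻¹ * s * a) * s * s⁻¹ := by group
    rw [this, h1, one_mul]
  have h5 : Commute (r⁻¹ * s * r) s⁻¹ := by
    rw [h4]; exact hB.mul_right hA
  exact (Commute.inv_right_iff.mp h5).symm

/-- the subgroup `S⟨a⟩` -/
def Ts : Subgroup G where
  carrier := {m | ∃ k : ℤ, a ^ k * m ∈ Ss hP hab}
  one_mem' := ⟨0, by simp [one_mem]⟩
  mul_mem' := by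
    rintro m n ⟨k, hk⟩ ⟨l, hl⟩
    refine ⟨k + l, ?_⟩
    have h1 := mul_mem (Ss_zpow hP hab hk l) hl
    have h2 : a ^ (k + l) * (m * n) = a ^ l * (a ^ k * m) * (a ^ l)⁻¹ * (a ^ l * n) := by group
    rw [h2]; exact h1
  inv_mem' := by
    rintro m ⟨k, hk⟩
    refine ⟨-k, ?_⟩
    have h1 := Ss_zpow hP hab (inv_mem hk) (-k)
    have h2 : a ^ (-k) * m⁻¹ = a ^ (-k) * (a ^ k * m)⁻¹ * (a ^ (-k))⁻¹ := by group
    rw [h2]; exact h1

theorem closure_le_Ts : closure {t : G | t ^ 3 = 1} ≤ Ts hP hab := by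
  rw [closure_le]
  intro z hz
  rcases trich hP hab hz with h | h | h
  · exact ⟨-1, by rw [zpow_neg_one]; exact (Y_iff hP hab).mp h⟩
  · have : z⁻¹ ∈ Ts hP hab := ⟨-1, by rw [zpow_neg_one]; exact (Y_iff hP hab).mp h⟩
    have := inv_mem this
    rw [inv_inv] at this; exact this
  · exact ⟨0, by rw [zpow_zero, one_mul, mem_Ss]; exact YM hP hab (Ya hab) h⟩

/-- the three cosets -/
theorem Ts_cases {t : G} (ht : t ∈ Ts hP hab) : t ∈ Ss hP hab ∨ Y a b t ∨ Y a b t⁻¹ := by
  obtain ⟨k, hk⟩ := ht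
  have hx3 : a ^ (3 : ℤ) = 1 := by exact_mod_cast hab.ha
  have hk' : a ^ k = a ^ (k % 3) := by
    conv_lhs => rw [← Int.emod_add_mul_ediv k 3]
    rw [zpow_add, zpow_mul, hx3, one_zpow, mul_one]
  rw [hk'] at hk
  have h0 : 0 ≤ k % 3 := Int.emod_nonneg k (by norm_num)
  have h3 : k % 3 < 3 := Int.emod_lt_of_pos k (by norm_num)
  rcases (by omega : k % 3 = 0 ∨ k % 3 = 1 ∨ k % 3 = 2) with h | h | h
  · rw [h, zpow_zero, one_mul] at hk
    exact Or.inl hk
  · rw [h, zpow_one] at hk
    right; right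
    -- `t⁻¹ = (a t)⁻¹ a`
    have h1 := Y_mul' hP hab (Ya hab) (inv_mem hk)
    have e : (a * t)⁻¹ * a = t⁻¹ * (a⁻¹ * a) := by group
    rwa [e, inv_mul_cancel, mul_one] at h1
  · rw [h] at hk
    right; left
    rw [Y_iff hP hab]
    have e : a ^ (2 : ℤ) = a⁻¹ := by
      have : a ^ (2 : ℤ) = a * a := by rw [zpow_ofNat, pow_two]
      rw [this, aa hab]
    rwa [e] at hk

theorem Ts_cube {t : G} (ht : t ∈ Ts hP hab) (hs : t ∉ Ss hP hab) : t ^ 3 = 1 := by
  rcases Ts_cases hP hab ht with h | h | h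
  · exact absurd h hs
  · exact h.1
  · have := cube_inv h.1
    rwa [inv_inv] at this

theorem Ts_conj {t s : G} (ht : t ∈ Ts hP hab) (hs : s ∈ Ss hP hab) :
    t⁻¹ * s * t ∈ Ss hP hab ∧ Commute s (t⁻¹ * s * t) := by
  rcases Ts_cases hP hab ht with h | h | h
  · exact ⟨mul_mem (mul_mem (inv_mem h) hs) h, comm2 hP hab h hs⟩
  · refine ⟨?_, comm1 hP hab h hs⟩
    have h1 := (Y_iff hP hab).mp h
    have h2 := mul_mem (mul_mem (inv_mem h1) (Ss_conj hP hab hs)) h1
    have e : (a⁻¹ * t)⁻¹ * (a⁻¹ * s * a) * (a⁻¹ * t) = t⁻¹ * s * t := by group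
    rwa [e] at h2
  · refine ⟨?_, ?_⟩
    · have h1 := (Y_iff hP hab).mp h
      have h2 := Ss_conj' hP hab (mul_mem (mul_mem h1 hs) (inv_mem h1))
      have e : a * (a⁻¹ * t⁻¹ * s * (a⁻¹ * t⁻¹)⁻¹) * a⁻¹ = t⁻¹ * s * t := by group
      rwa [e] at h2
    · have := comm1' hP hab h hs
      rwa [inv_inv] at this

end

/-- in a group of exponent 3 every element commutes with its conjugates -/
theorem exp3_engel {t s : G} (hs : s ^ 3 = 1) (h1 : (t * s) ^ 3 = 1) (h2 : (t * s⁻¹) ^ 3 = 1)
    (ht : t ^ 3 = 1) : Commute s (t⁻¹ * s * t) := by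
  have e1 : t⁻¹ * t⁻¹ = t := by
    have : t⁻¹ * t⁻¹ = t⁻¹ ^ 3 * t := by simp only [pow_succ, pow_zero]; group
    rw [this, cube_inv ht, one_mul]
  have e2 : t * t = t⁻¹ := by
    rw [eq_inv_iff_mul_eq_one]
    simpa [pow_succ, mul_assoc] using ht
  have h3 : (t * s * t⁻¹) * (t⁻¹ * s * t) * s = 1 := by
    have h2 : (t * s * t⁻¹) * (t⁻¹ * s * t) * s = t * s * (t⁻¹ * t⁻¹) * s * t * s := by group
    rw [h2, e1, ← h1]
    simp only [pow_succ, pow_zero]; group
  have h4 : (t⁻¹ * s * t) * (t * s * t⁻¹) * s = 1 := by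
    have h3 : (t⁻¹ * s) ^ 3 = 1 := by
      have := cube_inv (cube_comm h2)
      rw [mul_inv_rev, inv_inv] at this
      exact this
    have h2 : (t⁻¹ * s * t) * (t * s * t⁻¹) * s = t⁻¹ * s * (t * t) * s * t⁻¹ * s := by group
    rw [h2, e2, ← h3]
    simp only [pow_succ, pow_zero]; group
  set u := t * s * t⁻¹
  set v := t⁻¹ * s * t
  have h5 : u * v = v * u := by
    have : u * v * s = v * u * s := by rw [h3, h4]
    exact mul_right_cancel this
  have h6 : s⁻¹ = u * v := by
    have : u * v = u * v * s * s⁻¹ := by group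
    rw [this, h3, one_mul]
  have h7 : Commute s⁻¹ v := by
    rw [h6]
    show u * v * v = v * (u * v)
    rw [h5, mul_assoc, h5, mul_assoc]
  exact Commute.inv_left_iff.mp h7

include hP

/-- **structure theorem** -/
theorem structure_thm : ∃ (S : Subgroup G) (a : G), a ^ 3 = 1 ∧
    S ≤ closure {t : G | t ^ 3 = 1} ∧
    (∀ t ∈ closure {t : G | t ^ 3 = 1}, ∃ k : ℤ, a ^ k * t ∈ S) ∧
    (∀ t ∈ closure {t : G | t ^ 3 = 1}, t ∉ S → t ^ 3 = 1) ∧
    (∀ t ∈ closure {t : G | t ^ 3 = 1}, ∀ s ∈ S, t⁻¹ * s * t ∈ S ∧ Commute s (t⁻¹ * s * t)) := by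
  by_cases hc : ∀ x y : G, x ^ 3 = 1 → y ^ 3 = 1 → p x y
  · -- the elements with trivial cube form a subgroup
    let T : Subgroup G :=
      { carrier := {t | t ^ 3 = 1}
        one_mem' := one_pow 3
        mul_mem' := by
          intro a b ha hb
          exact hc a b ha hb
        inv_mem' := by intro a ha; exact cube_inv ha }
    have hT : closure {t : G | t ^ 3 = 1} ≤ T := by
      rw [closure_le]; intro z hz; exact hz
    refine ⟨closure {t : G | t ^ 3 = 1}, 1, one_pow 3, le_rfl, fun t ht => ⟨0, by simpa using ht⟩,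
      fun t _ h => absurd ‹_› h, fun t ht s hs => ⟨?_, ?_⟩⟩
    · exact mul_mem (mul_mem (inv_mem ht) hs) ht
    · have hs' : s ^ 3 = 1 := hT hs
      have ht' : t ^ 3 = 1 := hT ht
      exact exp3_engel hs' (hc t s ht' hs') (hc t s⁻¹ ht' (cube_inv hs')) ht'
  · push Not at hc
    obtain ⟨x, y, hx, hy, hxy⟩ := hc
    have hab : Str x y⁻¹ := by
      refine ⟨hx, cube_inv hy, ?_, fun h => hxy (n_ri.mp h)⟩
      rcases hP x y hx hy with h | h
      · exact absurd h hxy
      · exact h
    have hle := closure_le_Ts hP hab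
    refine ⟨Ss hP hab, x, hx, ?_, fun t ht => hle ht, fun t ht hs => Ts_cube hP hab (hle ht) hs,
      fun t ht s hs => Ts_conj hP hab (hle ht) hs⟩
    intro s hs
    have h1 : x ∈ closure {t : G | t ^ 3 = 1} := subset_closure hx
    have h2 : x * s ∈ closure {t : G | t ^ 3 = 1} := subset_closure (hs : Y x y⁻¹ (x * s)).1
    have h3 := mul_mem (inv_mem h1) h2
    rwa [inv_mul_cancel_left] at h3

/-- **torsion finitely generated subgroups of the subgroup generated by the elements of order 3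
are finite** -/
theorem finite_closure (F : Subgroup G) (hF : F.FG) (hFT : F ≤ closure {t : G | t ^ 3 = 1})
    (ht : ∀ g ∈ closure {t : G | t ^ 3 = 1}, IsOfFinOrder g) : Finite F := by
  obtain ⟨S, x, hx, hSle, hcov, _, hconj⟩ := structure_thm hP
  set T := closure {t : G | t ^ 3 = 1} with hT
  set F' : Subgroup G := F ⊔ zpowers x with hF'
  have hxT : x ∈ T := subset_closure hx
  have hF'T : F' ≤ T := sup_le hFT (by rw [zpowers_le]; exact hxT)
  have hzfg : (zpowers x).FG := ⟨{x}, by simp [zpowers_eq_closure]⟩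
  have hF'fg : Group.FG F' := (Group.fg_iff_subgroup_fg F').mpr (hF.sup hzfg)
  have hzfin : Finite (zpowers x) := by
    have : IsOfFinOrder x := isOfFinOrder_iff_pow_eq_one.mpr ⟨3, by norm_num, hx⟩
    exact this.finite_zpowers
  have hqfin : Finite (F' ⧸ S.subgroupOf F') := by
    refine Finite.of_surjective
      (fun t : zpowers x => (QuotientGroup.mk (⟨t.1, (le_sup_right : zpowers x ≤ F') t.2⟩ : F') :
        F' ⧸ S.subgroupOf F')) ?_
    intro q
    obtain ⟨f, rfl⟩ := QuotientGroup.mk_surjective q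
    obtain ⟨k, hk⟩ := hcov f.1 (hF'T f.2)
    refine ⟨⟨x ^ (-k), ⟨-k, rfl⟩⟩, ?_⟩
    rw [QuotientGroup.eq]
    show (x ^ (-k))⁻¹ * f.1 ∈ S
    rw [zpow_neg, inv_inv]; exact hk
  have hfi : (S.subgroupOf F').FiniteIndex := Subgroup.finiteIndex_of_finite_quotient
  have hSfg : Group.FG (S.subgroupOf F') := Subgroup.fg_of_index_ne_zero _
  have hSfin : Finite (S.subgroupOf F') := by
    refine engel_fin' _ ?_ ?_ hSfg
    · intro s r
      have h1 : (s : F').1 ∈ S := s.2
      have h2 : (r : F').1 ∈ S := r.2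
      have h3 := (hconj _ (hSle h2) _ h1).2
      apply Subtype.ext
      apply Subtype.ext
      exact h3
    · intro g
      have h1 := ht g.1.1 (hF'T g.1.2)
      have h2 : IsOfFinOrder g.1 := Submonoid.isOfFinOrder_coe.mp h1
      exact Submonoid.isOfFinOrder_coe.mp h2
  have hfin : Finite F' := H15.Struct.finite_of_index _ hfi.index_ne_zero hSfin
  exact Finite.of_injective (Subgroup.inclusion (le_sup_left : F ≤ F'))
    (Subgroup.inclusion_injective _)

/-- if groups of exponent dividing `m` are locally finite, then so are the groups of exponent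
dividing `3 m` satisfying `HP` -/
theorem finite_exp (m : ℕ) (hm : 0 < m)
    (hLF : ∀ (Q : Type u) [Group Q], Group.FG Q → (∀ q : Q, q ^ m = 1) → Finite Q)
    (hfg : Group.FG G) (h : ∀ g : G, g ^ (3 * m) = 1) : Finite G := by
  set N : Subgroup G := closure {t : G | t ^ 3 = 1} with hN
  have hNn : N.Normal := by
    refine ⟨fun n hn g => ?_⟩
    induction hn using closure_induction with
    | mem t ht =>
      refine subset_closure ?_
      have ht' : t ^ 3 = 1 := ht
      show (g * t * g⁻¹) ^ 3 = 1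
      rw [conj_pow, ht']; simp
    | one => simp [one_mem]
    | mul a b _ _ ha hb =>
      have : g * (a * b) * g⁻¹ = (g * a * g⁻¹) * (g * b * g⁻¹) := by group
      rw [this]; exact mul_mem ha hb
    | inv a _ ha =>
      have : g * a⁻¹ * g⁻¹ = (g * a * g⁻¹)⁻¹ := by group
      rw [this]; exact inv_mem ha
  have hQ : Finite (G ⧸ N) := by
    have hfgQ : Group.FG (G ⧸ N) := QuotientGroup.fg N
    refine hLF (G ⧸ N) hfgQ ?_
    intro q
    obtain ⟨g, rfl⟩ := QuotientGroup.mk_surjective q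
    rw [← QuotientGroup.mk_pow, QuotientGroup.eq_one_iff]
    refine subset_closure ?_
    show (g ^ m) ^ 3 = 1
    rw [← pow_mul, mul_comm]; exact h g
  have hfi : N.FiniteIndex := Subgroup.finiteIndex_of_finite_quotient
  have hNfg : N.FG := (Group.fg_iff_subgroup_fg N).mp (Subgroup.fg_of_index_ne_zero _)
  refine H15.Struct.finite_of_index N hfi.index_ne_zero (finite_closure hP N hNfg le_rfl ?_)
  intro g _
  exact isOfFinOrder_iff_pow_eq_one.mpr ⟨3 * m, by omega, h g⟩

end H242.P3
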