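import Pool.Agent.H242P3.Two

/-!
Exponents `2 ^ a * 3 ^ b * m` when all quotients satisfy the two conditions.
-/

universe u

namespace H242.P3.Two

open Subgroup

/-- the two conditions for the quotient by the normal subgroup `N` -/
def Cond (G : Type u) [Group G] (N : Subgroup G) : Prop :=
  (∀ x y : G, x ^ 3 ∈ N → y ^ 3 ∈ N → (x * y) ^ 3 ∈ N ∨ (x * y⁻¹) ^ 3 ∈ N) ∧
    ∀ d y : G, d ^ 2 ∈ N → y ^ 4 ∈ N → (d * y) ^ 4 ∈ N

/-- all quotients satisfy the two conditions -/
def Good (G : Type u) [Group G] : Prop := ∀ N : Subgroup G, N.Normal → Cond G N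

variable {G : Type u} [Group G]

theorem Good.quot (h : Good G) (T : Subgroup G) [T.Normal] : Good (G ⧸ T) := by
  intro M hM
  have h1 := h (M.comap (QuotientGroup.mk' T)) (hM.comap _)
  refine ⟨?_, ?_⟩
  · intro x y hx hy
    obtain ⟨x, rfl⟩ := QuotientGroup.mk'_surjective T x
    obtain ⟨y, rfl⟩ := QuotientGroup.mk'_surjective T y
    rcases h1.1 x y (by rw [mem_comap, map_pow]; exact hx) (by rw [mem_comap, map_pow]; exact hy)
      with h2 | h2
    · left; rw [mem_comap, map_pow, map_mul] at h2; exact h2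
    · right; rw [mem_comap, map_pow, map_mul, map_inv] at h2; exact h2
  · intro d y hd hy
    obtain ⟨d, rfl⟩ := QuotientGroup.mk'_surjective T d
    obtain ⟨y, rfl⟩ := QuotientGroup.mk'_surjective T y
    have h2 := h1.2 d y (by rw [mem_comap, map_pow]; exact hd)
      (by rw [mem_comap, map_pow]; exact hy)
    rw [mem_comap, map_pow, map_mul] at h2; exact h2

theorem Good.hp (h : Good G) : HP G := by
  intro a b ha hb
  have h1 := (h ⊥ inferInstance).1 a b (by rw [ha]; exact one_mem _) (by rw [hb]; exact one_mem _)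
  rcases h1 with h1 | h1
  · exact Or.inl (mem_bot.mp h1)
  · exact Or.inr (mem_bot.mp h1)

theorem Good.q4 (h : Good G) (d y : G) (hd : d ^ 2 = 1) (hy : y ^ 4 = 1) :
    (d * y) ^ 4 = 1 :=
  mem_bot.mp ((h ⊥ inferInstance).2 d y (by rw [hd]; exact one_mem _)
    (by rw [hy]; exact one_mem _))

/-- extension by a locally finite quotient -/
theorem lf_ext (T : Subgroup G) [T.Normal] (hT : LF T)
    (hQ : ∀ E : Subgroup (G ⧸ T), E.FG → Finite E) (F : Subgroup G) (hF : F.FG) : Finite F := by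
  refine fin_ext hT hF ?_
  have hE : (F.map (QuotientGroup.mk' T)).FG := by
    classical
    obtain ⟨S, hS⟩ := hF
    exact ⟨S.image (QuotientGroup.mk' T), by rw [Finset.coe_image, ← MonoidHom.map_closure, hS]⟩
  have h1 : Finite (F.map (QuotientGroup.mk' T) : Subgroup (G ⧸ T)) := hQ _ hE
  refine Finite.of_injective
    (β := (F.map (QuotientGroup.mk' T) : Subgroup (G ⧸ T)))
    (fun q => Quotient.liftOn' q (fun f => (⟨QuotientGroup.mk' T f.1, ⟨f.1, f.2, rfl⟩⟩ :
      (F.map (QuotientGroup.mk' T) : Subgroup (G ⧸ T)))) ?_) ?_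
  · intro a b hab
    rw [QuotientGroup.leftRel_apply] at hab
    apply Subtype.ext
    show (QuotientGroup.mk a.1 : G ⧸ T) = QuotientGroup.mk b.1
    rw [QuotientGroup.eq]
    exact hab
  · intro p q
    refine Quotient.inductionOn₂' p q ?_
    intro a b hab
    have h2 : (QuotientGroup.mk a.1 : G ⧸ T) = QuotientGroup.mk b.1 := congrArg Subtype.val hab
    rw [QuotientGroup.eq] at h2
    apply Quotient.sound'
    rw [QuotientGroup.leftRel_apply]
    exact h2

theorem lf_T3 (hP : HP G) (ht : ∀ g : G, IsOfFinOrder g) : LF (T G 3) :=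
  fun F hF hFT => finite_closure hP F hF hFT (fun g _ => ht g)

/-- exponent `2 ^ a * m` -/
theorem good_two (m : ℕ) (hm : 0 < m)
    (hLF : ∀ (Q : Type u) [Group Q], (∀ q : Q, q ^ m = 1) → ∀ E : Subgroup Q, E.FG → Finite E)
    (a : ℕ) : ∀ (G : Type u) [Group G], Good G → (∀ g : G, g ^ (2 ^ a * m) = 1) →
      ∀ F : Subgroup G, F.FG → Finite F := by
  induction a with
  | zero =>
    intro G _ _ h F hF
    exact hLF G (fun g => by simpa using h g) F hF
  | succ a ih =>
    intro G _ hG h F hF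
    have hn : (T G 2).Normal := T_normal 2
    refine lf_ext (T G 2) (lf_T2 hG.q4) ?_ F hF
    refine ih (G ⧸ T G 2) (hG.quot _) ?_
    intro q
    obtain ⟨g, rfl⟩ := QuotientGroup.mk_surjective q
    rw [← QuotientGroup.mk_pow, QuotientGroup.eq_one_iff]
    refine Subgroup.subset_closure ?_
    show (g ^ (2 ^ a * m)) ^ 2 = 1
    rw [← pow_mul]
    have := h g
    rwa [show 2 ^ (a + 1) * m = 2 ^ a * m * 2 by ring] at this

/-- exponent `3 ^ b * 2 ^ a * m` -/
theorem good_three (m : ℕ) (hm : 0 < m)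
    (hLF : ∀ (Q : Type u) [Group Q], (∀ q : Q, q ^ m = 1) → ∀ E : Subgroup Q, E.FG → Finite E)
    (a b : ℕ) : ∀ (G : Type u) [Group G], Good G → (∀ g : G, g ^ (3 ^ b * (2 ^ a * m)) = 1) →
      ∀ F : Subgroup G, F.FG → Finite F := by
  induction b with
  | zero =>
    intro G _ hG h F hF
    exact good_two m hm hLF a G hG (fun g => by simpa using h g) F hF
  | succ b ih =>
    intro G _ hG h F hF
    have hn : (T G 3).Normal := T_normal 3
    have hpos : 0 < 3 ^ (b + 1) * (2 ^ a * m) := by positivity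
    have ht : ∀ g : G, IsOfFinOrder g := fun g => isOfFinOrder_iff_pow_eq_one.mpr
      ⟨_, hpos, h g⟩
    refine lf_ext (T G 3) (lf_T3 hG.hp ht) ?_ F hF
    refine ih (G ⧸ T G 3) (hG.quot _) ?_
    intro q
    obtain ⟨g, rfl⟩ := QuotientGroup.mk_surjective q
    rw [← QuotientGroup.mk_pow, QuotientGroup.eq_one_iff]
    refine Subgroup.subset_closure ?_
    show (g ^ (3 ^ b * (2 ^ a * m))) ^ 3 = 1
    rw [← pow_mul]
    have := h g
    rwa [show 3 ^ (b + 1) * (2 ^ a * m) = 3 ^ b * (2 ^ a * m) * 3 by ring] at this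

end H242.P3.Two
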