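import Pool.Agent.H242P3.Claims

/-!
The structure of the subgroup generated by the elements of trivial cube in a group satisfying
`HP`.
-/

namespace H242.P3

variable {G : Type*} [Group G]

theorem p_symm {x y : G} (h : p x y) : p y x := cube_comm h

theorem n_symm {x y : G} (h : n x y) : n y x := by
  unfold n at *
  have h1 := cube_inv h
  rwa [mul_inv_rev, inv_inv] at h1

theorem p_inv {x y : G} (h : p x y) : p x⁻¹ y⁻¹ := by
  unfold p at *
  have h1 := cube_inv (cube_comm h)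
  rwa [mul_inv_rev] at h1

theorem p_inv_iff {x y : G} : p x⁻¹ y⁻¹ ↔ p x y :=
  ⟨fun h => by simpa using p_inv h, p_inv⟩

theorem p_ri {x y : G} : p x y⁻¹ ↔ n x y := Iff.rfl

theorem n_ri {x y : G} : n x y⁻¹ ↔ p x y := by
  unfold n p; rw [inv_inv]

theorem p_li {x y : G} : p x⁻¹ y ↔ n x y := by
  have h := p_inv_iff (x := x⁻¹) (y := y)
  rw [inv_inv] at h
  exact h.symm

theorem n_li {x y : G} : n x⁻¹ y ↔ p x y := by
  rw [← p_ri, p_inv_iff]

theorem p_comm {x y : G} : p x y ↔ p y x := ⟨p_symm, p_symm⟩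

theorem n_comm {x y : G} : n x y ↔ n y x := ⟨n_symm, n_symm⟩

theorem p_self {x : G} (h : x ^ 3 = 1) : p x x := by
  unfold p
  have : (x * x) ^ 3 = x ^ 3 * x ^ 3 := by simp only [pow_succ, pow_zero]; group
  rw [this, h, one_mul]

theorem p_conj {x y g : G} : p (g⁻¹ * x * g) (g⁻¹ * y * g) ↔ p x y := by
  unfold p
  have h1 : g⁻¹ * x * g * (g⁻¹ * y * g) = g⁻¹ * (x * y) * g := by group
  rw [h1]
  constructor
  · intro h
    have := cube_conj (c := g⁻¹) h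
    have h2 : g⁻¹⁻¹ * (g⁻¹ * (x * y) * g) * g⁻¹ = x * y := by group
    rwa [h2] at this
  · intro h; exact cube_conj h

/-- a strict pair -/
structure Str (a b : G) : Prop where
  ha : a ^ 3 = 1
  hb : b ^ 3 = 1
  hp : p a b
  hn : ¬ n a b

theorem Str.symm {a b : G} (h : Str a b) : Str b a :=
  ⟨h.hb, h.ha, p_symm h.hp, fun h1 => h.hn (n_symm h1)⟩

variable (hP : HP G)

include hP

theorem HPp {x y : G} (hx : x ^ 3 = 1) (hy : y ^ 3 = 1) : p x y ∨ n x y := hP x y hx hy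

theorem unb {x y z : G} (hx : x ^ 3 = 1) (hy : y ^ 3 = 1) (hz : z ^ 3 = 1) (h1 : p x y)
    (h2 : p x z) (h3 : n y z) : n x y ∨ n x z ∨ p y z := by
  rcases T1 hP (cube_inv hx) hy hz (n_li.mpr h1) h3 (n_symm (n_li.mpr h2)) with h | h | h
  · exact Or.inl (p_li.mp h)
  · exact Or.inr (Or.inr h)
  · exact Or.inr (Or.inl (n_symm (p_ri.mp h)))

theorem pick {a b : G} (h : Str a b) : ∃ w : G, Str a w ∧ ¬ n b w ∧
    (∀ c : G, c ^ 3 = 1 → p a c → p b c → p c w) ∧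
    (∀ c : G, c ^ 3 = 1 → p a c → p b c → n a c → n c w → n b c) ∧
    (∀ c : G, c ^ 3 = 1 → p a c → p b c → n b c → n c w → n a c) := by
  have e1 : a * a = a⁻¹ := by
    rw [eq_inv_iff_mul_eq_one]
    have := h.ha
    simpa [pow_succ, mul_assoc] using this
  by_cases hB : p b⁻¹ (a * b⁻¹ * a)
  · -- `w = a⁻¹ b a`
    have hB2 : ¬ p b⁻¹ (a⁻¹ * b * a) := fun h2 => h.hn (W hP h.ha h.hb h.hp hB h2)
    refine ⟨a⁻¹ * b * a, ⟨h.ha, cube_conj h.hb, ?_, ?_⟩, fun h2 => hB2 (p_li.mpr h2), ?_, ?_, ?_⟩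
    · unfold p
      have : a * (a⁻¹ * b * a) = b * a := by group
      rw [this]; exact p_symm h.hp
    · intro h2
      apply h.hn
      unfold n at h2
      have : a * (a⁻¹ * b * a)⁻¹ = b⁻¹ * a := by group
      rw [this] at h2
      exact n_symm (p_li.mp h2)
    · intro c hc h1 h2
      rcases C2 hP h.ha h.hb hc h.hp h1 h2 with h3 | h3
      · exact absurd h3 h.hn
      · exact h3
    · intro c hc h1 h2 h3 h4
      rcases N2 hP h.ha h.hb hc h.hp h1 h2 h3 (p_li.mpr h4) with h5 | h5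
      · exact absurd h5 h.hn
      · exact h5
    · intro c hc h1 h2 h3 h4
      rcases N3 hP h.ha h.hb hc h.hp h1 h2 h3 (p_li.mpr h4) with h5 | h5 | h5
      · exact absurd h5 h.hn
      · exact absurd h5 hB2
      · exact h5
  · refine ⟨a * b⁻¹ * a, ⟨h.ha, ?_, ?_, ?_⟩, fun h2 => hB (p_li.mpr h2), ?_, ?_, ?_⟩
    · have h2 : (b⁻¹ * a⁻¹) ^ 3 = 1 := by
        have := cube_inv h.hp
        rwa [mul_inv_rev] at this
      have h3 : a * b⁻¹ * a = a * (b⁻¹ * (a * a)) * a⁻¹ := by group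
      rw [h3, e1]
      have := cube_conj (c := a⁻¹) h2
      rwa [inv_inv] at this
    · unfold p
      have h3 : a * (a * b⁻¹ * a) = a⁻¹ * b⁻¹ * a := by rw [← e1]; group
      rw [h3]
      exact cube_conj (cube_inv h.hb)
    · intro h2
      apply h.hn
      unfold n at h2
      have : a * (a * b⁻¹ * a)⁻¹ = b * a⁻¹ := by group
      rw [this] at h2
      exact n_symm h2
    · intro c hc h1 h2
      rcases C1 hP h.ha h.hb hc h.hp h1 h2 with h3 | h3
      · exact absurd h3 h.hn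
      · exact h3
    · intro c hc h1 h2 h3 h4
      rcases N1 hP h.ha h.hb hc h.hp h1 h2 h3 (p_li.mpr h4) with h5 | h5
      · exact absurd h5 h.hn
      · exact h5
    · intro c hc h1 h2 h3 h4
      rcases N4 hP h.ha h.hb hc h.hp h1 h2 h3 (p_li.mpr h4) with h5 | h5 | h5
      · exact absurd h5 h.hn
      · exact absurd h5 hB
      · exact h5

theorem sgn {a b c : G} (h : Str a b) (hc : c ^ 3 = 1) :
    (p c a ∧ p c b) ∨ (n c a ∧ n c b) := by
  rcases HPp hP hc h.ha with h1 | h1 <;> rcases HPp hP hc h.hb with h2 | h2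
  · exact Or.inl ⟨h1, h2⟩
  · -- `p c a`, `n c b`
    rcases unb hP h.ha h.hb hc h.hp (p_symm h1) (n_symm h2) with h3 | h3 | h3
    · exact absurd h3 h.hn
    · exact Or.inr ⟨n_symm h3, h2⟩
    · exact Or.inl ⟨h1, p_symm h3⟩
  · rcases unb hP h.hb h.ha hc (p_symm h.hp) (p_symm h2) (n_symm h1) with h3 | h3 | h3
    · exact absurd (n_symm h3) h.hn
    · exact Or.inr ⟨h1, n_symm h3⟩
    · exact Or.inl ⟨p_symm h3, h2⟩
  · exact Or.inr ⟨h1, h2⟩

/-- neutral -/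
def N (x y : G) : Prop := p x y ∧ n x y

omit hP in
theorem N.symm {x y : G} (h : N x y) : N y x := ⟨p_symm h.1, n_symm h.2⟩

omit hP in
theorem N.li {x y : G} (h : N x y) : N x⁻¹ y := ⟨p_li.mpr h.2, n_li.mpr h.1⟩

omit hP in
theorem N.ri {x y : G} (h : N x y) : N x y⁻¹ := ⟨p_ri.mpr h.2, n_ri.mpr h.1⟩

theorem F3p {a b c : G} (h : Str a b) (hc : c ^ 3 = 1) (h1 : N c a) (h2 : N c b) :
    p (a * c) b ∧ ¬ n (a * c) b := by
  constructor
  · rcases F3a hP h.ha h.hb hc h.hp (p_symm h1.1) (p_symm h2.1) (n_symm h1.2) (n_symm h2.2)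
      with h3 | h3
    · exact absurd h3 h.hn
    · exact h3
  · intro h3
    exact h.hn (F3b hP h.ha h.hb hc h.hp (p_symm h1.1) (p_symm h2.1) (n_symm h1.2)
      (n_symm h2.2) h3)

theorem E0 {a b z t : G} (h : Str a b) (hz : z ^ 3 = 1) (ht : t ^ 3 = 1) (h1 : N z a)
    (h2 : N z b) (h3 : p t a) (h4 : p t b) (h5 : p z t) (h6 : ¬ n a t) (h7 : ¬ n z t) :
    n b t := by
  have haz : (a * z) ^ 3 = 1 := p_symm h1.1
  have h8 : n (a * z) t := by
    rcases F4a hP h.ha ht hz (p_symm h3) (p_symm h1.1) (p_symm h5) (n_symm h1.2) with h | h | h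
    · exact absurd h h6
    · exact absurd (n_symm h) h7
    · exact h
  have h9 : ¬ p (a * z) t := by
    intro h9
    rcases F4b hP h.ha ht hz (p_symm h3) (p_symm h1.1) (p_symm h5) (n_symm h1.2) h9 with h | h
    · exact h6 h
    · exact h7 (n_symm h)
  have h10 := F3p hP h hz h1 h2
  rcases unb hP h.hb haz ht (p_symm h10.1) (p_symm h4) h8 with h11 | h11 | h11
  · exact absurd (n_symm h11) h10.2
  · exact h11
  · exact absurd h11 h9

theorem E1 {a b z t : G} (h : Str a b) (hz : z ^ 3 = 1) (ht : t ^ 3 = 1) (h1 : N z a)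
    (h2 : N z b) (h3 : p t a) (h4 : p t b) (h5 : p z t) (h6 : ¬ n a t) : n z t := by
  by_contra h7
  obtain ⟨w, haw, hbw, hw1, _, hw3⟩ := pick hP h
  have h8 := E0 hP h hz ht h1 h2 h3 h4 h5 h6 h7
  have h9 : N z w := by
    refine ⟨hw1 z hz (p_symm h1.1) (p_symm h2.1), ?_⟩
    exact p_li.mp (hw1 z⁻¹ (cube_inv hz) (p_ri.mpr (n_symm h1.2)) (p_ri.mpr (n_symm h2.2)))
  have h10 : p t w := hw1 t ht (p_symm h3) (p_symm h4)
  have h11 := E0 hP haw hz ht h1 h9 h3 h10 h5 h6 h7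
  exact h6 (hw3 t ht (p_symm h3) (p_symm h4) h8 (n_symm h11))

theorem E2 {a b z t : G} (h : Str a b) (hz : z ^ 3 = 1) (ht : t ^ 3 = 1) (h1 : N z a)
    (h2 : N z b) (h3 : p t a) (h4 : p t b) (h5 : p z t) : n z t := by
  by_cases h6 : n a t
  swap
  · exact E1 hP h hz ht h1 h2 h3 h4 h5 h6
  by_cases h6' : n b t
  swap
  · exact E1 hP h.symm hz ht h2 h1 h4 h3 h5 h6'
  by_contra h7
  have hzt : Str z t := ⟨hz, ht, h5, h7⟩
  -- `q = a z⁻¹`
  have hq : (a * z⁻¹) ^ 3 = 1 := n_symm h1.2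
  have h8 := F3p hP h (cube_inv hz) h1.li h2.li
  have hqb : Str (a * z⁻¹) b := ⟨hq, h.hb, h8.1, h8.2⟩
  have hat : N a t := ⟨p_symm h3, h6⟩
  have hbt : N b t := ⟨p_symm h4, h6'⟩
  have h9 := F3p hP hzt (cube_inv h.ha) h1.symm.li hat.li
  have e : z * a⁻¹ = (a * z⁻¹)⁻¹ := by group
  rw [e, p_li, n_li] at h9
  have h10 : N z⁻¹ (a * z⁻¹) := by
    constructor
    · unfold p
      have h11 : z⁻¹ * (a * z⁻¹) = z⁻¹ * (a * z⁻¹ * z⁻¹) * z := by group
      rw [h11]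
      apply cube_conj
      have e1 : z⁻¹ * z⁻¹ = z := by
        have : z⁻¹ * z⁻¹ = z⁻¹ ^ 3 * z := by simp only [pow_succ, pow_zero]; group
        rw [this, cube_inv hz, one_mul]
      rw [mul_assoc, e1]
      exact p_symm h1.1
    · unfold n
      have h11 : z⁻¹ * (a * z⁻¹)⁻¹ = a⁻¹ := by group
      rw [h11]
      exact cube_inv h.ha
  have h12 := E1 hP hqb (cube_inv hz) (cube_inv ht) h10 h2.li (p_li.mpr (n_symm h9.1))
    (p_li.mpr (n_symm h6')) (p_inv h5) (fun h13 => h9.2 (n_ri.mp h13))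
  exact h7 (p_ri.mp (n_li.mp h12))

theorem E3 {a b z t : G} (h : Str a b) (hz : z ^ 3 = 1) (h1 : N z a) (h2 : N z b)
    (ht : t ^ 3 = 1) : N z t := by
  have key : ∀ t : G, t ^ 3 = 1 → p t a → p t b → N z t := by
    intro t ht h3 h4
    rcases HPp hP hz ht with h5 | h5
    · exact ⟨h5, E2 hP h hz ht h1 h2 h3 h4 h5⟩
    · have := E2 hP h (cube_inv hz) ht h1.li h2.li h3 h4 (p_li.mpr h5)
      exact ⟨n_li.mp this, h5⟩
  rcases sgn hP h ht with ⟨h3, h4⟩ | ⟨h3, h4⟩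
  · exact key t ht h3 h4
  · have := (key t⁻¹ (cube_inv ht) (p_li.mpr h3) (p_li.mpr h4)).ri
    rwa [inv_inv] at this

theorem D0 {a b c d : G} (h : Str a b) (hc : c ^ 3 = 1) (hd : d ^ 3 = 1) (ca : p a c)
    (cb : p b c) (da : p a d) (db : p b d) (h1 : n a c) (h2 : n b d) (h3 : ¬ n b c)
    (h4 : ¬ n a d) (h5 : n c d) : p c d := by
  obtain ⟨w, haw, hbw, hw1, hw2, hw3⟩ := pick hP h
  have hcw := hw1 c hc ca cb
  have hdw := hw1 d hd da db
  rcases unb hP haw.hb hc hd (p_symm hcw) (p_symm hdw) h5 with h6 | h6 | h6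
  · exact absurd (hw2 c hc ca cb h1 (n_symm h6)) h3
  · exact absurd (hw3 d hd da db h2 (n_symm h6)) h4
  · exact h6

theorem D1 {a b c d : G} (h : Str a b) (hc : c ^ 3 = 1) (hd : d ^ 3 = 1) (ca : p c a)
    (cb : p c b) (da : p d a) (db : p d b) (h1 : ¬ (n c a ∧ n c b)) (h2 : ¬ (n d a ∧ n d b)) :
    p c d := by
  rcases HPp hP hc hd with h3 | h3
  · exact h3
  by_contra h4
  have h5 := unb hP h.ha hc hd (p_symm ca) (p_symm da) h3
  have h6 := unb hP h.hb hc hd (p_symm cb) (p_symm db) h3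
  have h5' : n c a ∨ n d a := by
    rcases h5 with h5 | h5 | h5
    · exact Or.inl (n_symm h5)
    · exact Or.inr (n_symm h5)
    · exact absurd h5 h4
  have h6' : n c b ∨ n d b := by
    rcases h6 with h5 | h5 | h5
    · exact Or.inl (n_symm h5)
    · exact Or.inr (n_symm h5)
    · exact absurd h5 h4
  by_cases hca : n c a
  · have hcb : ¬ n c b := fun h7 => h1 ⟨hca, h7⟩
    have hdb : n d b := h6'.resolve_left hcb
    have hda : ¬ n d a := fun h7 => h2 ⟨h7, hdb⟩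
    exact h4 (D0 hP h hc hd (p_symm ca) (p_symm cb) (p_symm da) (p_symm db) (n_symm hca)
      (n_symm hdb) (fun h7 => hcb (n_symm h7)) (fun h7 => hda (n_symm h7)) h3)
  · have hda : n d a := h5'.resolve_left hca
    have hdb : ¬ n d b := fun h7 => h2 ⟨hda, h7⟩
    have hcb : n c b := h6'.resolve_right hdb
    exact h4 (p_symm (D0 hP h hd hc (p_symm da) (p_symm db) (p_symm ca) (p_symm cb) (n_symm hda)
      (n_symm hcb) (fun h7 => hdb (n_symm h7)) (fun h7 => hca (n_symm h7)) (n_symm h3)))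

/-- the elements of trivial cube neutral to all elements of trivial cube -/
def Z0 (z : G) : Prop := z ^ 3 = 1 ∧ ∀ t : G, t ^ 3 = 1 → N z t

omit hP in
theorem Z0.inv {z : G} (h : Z0 z) : Z0 z⁻¹ := ⟨cube_inv h.1, fun t ht => (h.2 t ht).li⟩

theorem Z0.mul {r s : G} (hr : Z0 r) (hs : Z0 s) : Z0 (r * s) := by
  have hrs := hr.2 s hs.1
  have key : ∀ t : G, t ^ 3 = 1 → (t * r * s) ^ 3 = 1 := by
    intro t ht
    exact AN hP ht hr.1 hs.1 (hr.2 t ht).symm.1 (hs.2 t ht).symm.1 hrs.1 (hr.2 t ht).symm.2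
      (hs.2 t ht).symm.2 hrs.2
  refine ⟨hrs.1, fun t ht => ⟨?_, ?_⟩⟩
  · apply p_symm
    unfold p
    rw [← mul_assoc]
    exact key t ht
  · apply cube_comm
    rw [← mul_assoc]
    exact key t⁻¹ (cube_inv ht)

omit hP in
theorem Z0.conj {z : G} (h : Z0 z) (g : G) : Z0 (g⁻¹ * z * g) := by
  refine ⟨cube_conj h.1, fun t ht => ?_⟩
  have h1 := h.2 (g⁻¹⁻¹ * t * g⁻¹) (cube_conj ht)
  have e : g⁻¹ * (g⁻¹⁻¹ * t * g⁻¹) * g = t := by group
  constructor
  · have h2 := (p_conj (g := g)).mpr h1.1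
    rwa [e] at h2
  · have h2 := (p_conj (g := g)).mpr (p_ri.mpr h1.2)
    have e2 : g⁻¹ * (g⁻¹⁻¹ * t * g⁻¹)⁻¹ * g = t⁻¹ := by group
    rw [e2] at h2
    exact p_ri.mp h2

/-- the positive elements with respect to a strict pair -/
def Y (a b c : G) : Prop := c ^ 3 = 1 ∧ p c a ∧ p c b ∧ ¬ Z0 c

section

variable {a b : G} (hab : Str a b)

include hab

theorem Yn {c : G} (hc : Y a b c) : ¬ (n c a ∧ n c b) := by
  intro h
  exact hc.2.2.2 ⟨hc.1, fun t ht => E3 hP hab hc.1 ⟨hc.2.1, h.1⟩ ⟨hc.2.2.1, h.2⟩ ht⟩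

theorem YD {c d : G} (hc : Y a b c) (hd : Y a b d) : p c d :=
  D1 hP hab hc.1 hd.1 hc.2.1 hc.2.2.1 hd.2.1 hd.2.2.1 (Yn hP hab hc) (Yn hP hab hd)

omit hP in
theorem Ya : Y a b a := by
  refine ⟨hab.ha, p_self hab.ha, hab.hp, fun h => hab.hn (h.2 b hab.hb).2⟩

omit hP in
theorem Yb : Y a b b := by
  refine ⟨hab.hb, p_symm hab.hp, p_self hab.hb, fun h => hab.hn (n_symm (h.2 a hab.ha).2)⟩

theorem partner {c : G} (hc : Y a b c) : ∃ g, Y a b g ∧ Str c g := by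
  by_cases h : n c a
  · have h2 : ¬ n c b := fun h2 => Yn hP hab hc ⟨h, h2⟩
    exact ⟨b, Yb hab, hc.1, hab.hb, hc.2.2.1, h2⟩
  · exact ⟨a, Ya hab, hc.1, hab.ha, hc.2.1, h⟩

theorem trich {c : G} (hc : c ^ 3 = 1) : Y a b c ∨ Y a b c⁻¹ ∨ Z0 c := by
  by_cases hz : Z0 c
  · exact Or.inr (Or.inr hz)
  rcases sgn hP hab hc with ⟨h3, h4⟩ | ⟨h3, h4⟩
  · exact Or.inl ⟨hc, h3, h4, hz⟩
  · refine Or.inr (Or.inl ⟨cube_inv hc, p_li.mpr h3, p_li.mpr h4, fun h5 => hz ?_⟩)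
    have := h5.inv
    rwa [inv_inv] at this

theorem posY {x y f : G} (hx : Y a b x) (hy : Y a b y) (hxy : Str x y) (hf : f ^ 3 = 1)
    (h1 : p f x) (h2 : p f y) (h3 : ¬ Z0 f) : Y a b f := by
  rcases trich hP hab hf with h | h | h
  · exact h
  · exfalso
    apply h3
    have h4 := p_li.mp (YD hP hab h hx)
    have h5 := p_li.mp (YD hP hab h hy)
    exact ⟨hf, fun t ht => E3 hP hxy hf ⟨h1, h4⟩ ⟨h2, h5⟩ ht⟩
  · exact absurd h h3

theorem YM {c r : G} (hc : Y a b c) (hr : Z0 r) : Y a b (c * r) := by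
  obtain ⟨g, hg, hcg⟩ := partner hP hab hc
  have hrc := hr.2 c hc.1
  have h1 := F3p hP hcg hr.1 hrc (hr.2 g hg.1)
  have e : c * c = c⁻¹ := by
    rw [eq_inv_iff_mul_eq_one]
    have := hc.1
    simpa [pow_succ, mul_assoc] using this
  refine posY hP hab hc hg hcg hrc.symm.1 ?_ h1.1 (fun h2 => h1.2 (h2.2 g hg.1).2)
  -- `(c r c)³ = 1`
  apply cube_comm
  rw [← mul_assoc, e]
  exact p_li.mpr hrc.symm.2

theorem YMl {c r : G} (hc : Y a b c) (hr : Z0 r) : Y a b (r * c) := by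
  have h := YM hP hab hc (hr.conj c)
  have e : c * (c⁻¹ * r * c) = r * c := by group
  rwa [e] at h

theorem nZ {c d : G} (hc : Y a b c) (hd : Y a b d) (h : n c d) : Z0 (c⁻¹ * d) := by
  obtain ⟨g, hg, hcg⟩ := partner hP hab hc
  have hcd := YD hP hab hc hd
  have hdg := YD hP hab hd hg
  have h1 : ¬ n d g := by
    intro h1
    exact hd.2.2.2 ⟨hd.1, fun t ht => E3 hP hcg hd.1 ⟨p_symm hcd, n_symm h⟩ ⟨hdg, h1⟩ ht⟩
  have hs : (c⁻¹ * d) ^ 3 = 1 := p_li.mpr h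
  have h2 : p (c⁻¹ * d) g := by
    rcases F5a hP hc.1 hg.1 hd.1 hcg.hp hcd (p_symm hdg) h with h3 | h3 | h3
    · exact absurd h3 hcg.hn
    · exact absurd (n_symm h3) h1
    · exact h3
  have h2' : n (c⁻¹ * d) g := by
    rcases F5b hP hc.1 hg.1 hd.1 hcg.hp hcd (p_symm hdg) h with h3 | h3 | h3
    · exact absurd h3 hcg.hn
    · exact absurd (n_symm h3) h1
    · exact h3
  have h4 : N (c⁻¹ * d) c := by
    constructor
    · unfold p
      exact cube_conj hd.1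
    · unfold n
      apply cube_comm
      rw [← mul_assoc]
      have e : c⁻¹ * c⁻¹ = c := by
        have : c⁻¹ * c⁻¹ = c⁻¹ ^ 3 * c := by simp only [pow_succ, pow_zero]; group
        rw [this, cube_inv hc.1, one_mul]
      rw [e]
      exact hcd
  exact ⟨hs, fun t ht => E3 hP hcg hs h4 ⟨h2, h2'⟩ ht⟩

theorem YH {c d e : G} (hc : Y a b c) (hd : Y a b d) (he : Y a b e) :
    Y a b (c * d⁻¹ * e) := by
  have hcd := YD hP hab hc hd
  have hce := YD hP hab hc he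
  have hde := YD hP hab hd he
  by_cases h1 : n d e
  · have h2 := YM hP hab hc (nZ hP hab hd he h1)
    rwa [← mul_assoc] at h2
  by_cases h2 : n c d
  · have h3 := (nZ hP hab hd hc (n_symm h2)).conj c⁻¹
    have h4 := YMl hP hab he h3
    have e1 : c⁻¹⁻¹ * (d⁻¹ * c) * c⁻¹ * e = c * d⁻¹ * e := by group
    rwa [e1] at h4
  have hs : Str c d := ⟨hc.1, hd.1, hcd, h2⟩
  have f3 : (c * d⁻¹ * e) ^ 3 = 1 := by
    rcases H1 hP hc.1 hd.1 he.1 hcd hce hde with h | h | h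
    · exact absurd h h2
    · exact absurd h h1
    · exact h
  have fd : p (c * d⁻¹ * e) d := by
    rcases H2 hP hc.1 hd.1 he.1 hcd hce hde with h | h | h
    · exact absurd h h2
    · exact absurd h h1
    · exact h
  have fc : p (c * d⁻¹ * e) c := by
    rcases H3 hP hc.1 hd.1 he.1 hcd hce hde with h | h | h
    · exact absurd h h2
    · exact absurd h h1
    · exact h
  refine posY hP hab hc hd hs f3 fc fd (fun hz => h2 ?_)
  have h5 := (hz.2 e he.1).2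
  unfold n at h5 ⊢
  have e2 : c * d⁻¹ * e * e⁻¹ = c * d⁻¹ := by group
  rwa [e2] at h5

theorem Yconj1 {c : G} (hc : Y a b c) : Y a b (a⁻¹ * c * a) := by
  -- `b' = a⁻¹ b a`
  have hb3 : (a⁻¹ * b * a) ^ 3 = 1 := cube_conj hab.hb
  have h1 : p (a⁻¹ * b * a) a := by
    unfold p
    have e : a⁻¹ * b * a * a = a⁻¹ * (b * a) * a := by group
    rw [e]
    exact cube_conj (p_symm hab.hp)
  have h2 : ¬ n (a⁻¹ * b * a) a := by
    intro h
    apply hab.hn
    unfold n at h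
    have e : a⁻¹ * b * a * a⁻¹ = a⁻¹ * b := by group
    rw [e] at h
    exact p_li.mp h
  have h3 : p (a⁻¹ * b * a) b := by
    rcases C2 hP hab.ha hab.hb hab.hb hab.hp hab.hp (p_self hab.hb) with h | h
    · exact absurd h hab.hn
    · exact p_symm h
  have hb' : Y a b (a⁻¹ * b * a) :=
    posY hP hab (Ya hab) (Yb hab) hab hb3 h1 h3 (fun hz => h2 (hz.2 a hab.ha).2)
  have hs : Str a (a⁻¹ * b * a) := ⟨hab.ha, hb3, p_symm h1, fun h => h2 (n_symm h)⟩
  refine posY hP hab (Ya hab) hb' hs (cube_conj hc.1) ?_ (p_conj.mpr hc.2.2.1) ?_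
  · have h4 := (p_conj (g := a)).mpr hc.2.1
    have e : a⁻¹ * a * a = a := by group
    rwa [e] at h4
  · intro hz
    have h4 := hz.conj a⁻¹
    have e : a⁻¹⁻¹ * (a⁻¹ * c * a) * a⁻¹ = c := by group
    rw [e] at h4
    exact hc.2.2.2 h4

end

end H242.P3
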