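import Pool.Agent.H15R2.Tree

/-!
Case trees on top of helper15's Todd-Coxeter checker, for groups in which, for any two elements
`a, b` with trivial cube, `(ab)³ = 1` or `(ab⁻¹)³ = 1`.
-/

namespace H242.P3

open H15.TC

/-- for any two elements `a, b` of trivial cube, `ab` or `ab⁻¹` has trivial cube -/
def HP (G : Type*) [Group G] : Prop :=
  ∀ a b : G, a ^ 3 = 1 → b ^ 3 = 1 → (a * b) ^ 3 = 1 ∨ (a * b⁻¹) ^ 3 = 1

/-- rotation of a word -/
noncomputable def rot (k : ℕ) (w : List ℕ) : List ℕ := w.drop k ++ w.take k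

/-- the relators used at a leaf: cubes of reduced rotations of the words of trivial cube -/
noncomputable def relsOf (tw : List (List ℕ)) (sel : List (ℕ × ℕ)) : List (List ℕ) :=
  sel.map fun p => pw (red3 (rot p.2 (tw.getD p.1 []))) 3

/-- case trees: at a leaf the checker proves that the cube of a goal word is trivial; at a node,
the word `nodeWord p a q b` or `nodeWord p a q b⁻¹`, with `a` and `b` from the list `tw` of words
of trivial cube, is added to the list -/
inductive OK (goals : List (List ℕ)) : List (List ℕ) → Prop where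
  | leaf (tw : List (List ℕ)) (sel : List (ℕ × ℕ)) (d s : List ℕ) (g : ℕ) (gw : List ℕ)
      (hg : goals[g]? = some gw) (h : check (relsOf tw sel) d s (pw gw 3) = true) : OK goals tw
  | node (tw t1 t2 : List (List ℕ)) (p a q b : List ℕ)
      (hab : (tw.contains a && tw.contains b) = true)
      (h1 : tw ++ [nodeWord p a q b] = t1) (h2 : tw ++ [nodeWord p a q (irev b)] = t2)
      (o1 : OK goals t1) (o2 : OK goals t2) : OK goals tw

variable {G : Type*} [Group G] {gen : ℕ → G}

theorem cube_comm {a b : G} (h : (a * b) ^ 3 = 1) : (b * a) ^ 3 = 1 := by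
  have h1 : (b * a) ^ 3 = a⁻¹ * (a * b) ^ 3 * a := by simp only [pow_succ, pow_zero]; group
  rw [h1, h]; group

theorem cube_conj {c d : G} (h : d ^ 3 = 1) : (c⁻¹ * d * c) ^ 3 = 1 := by
  have h1 : (c⁻¹ * d * c) ^ 3 = c⁻¹ * d ^ 3 * c := by simp only [pow_succ, pow_zero]; group
  rw [h1, h]; group

theorem cube_inv {d : G} (h : d ^ 3 = 1) : (d⁻¹) ^ 3 = 1 := by
  rw [inv_pow, h, inv_one]

theorem ev_rot {w : List ℕ} (k : ℕ) (h : ev gen w ^ 3 = 1) : ev gen (rot k w) ^ 3 = 1 := by
  unfold rot
  rw [ev_append]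
  apply cube_comm
  rw [← ev_append, List.take_append_drop]
  exact h

theorem sound {goals : List (List ℕ)} (hP : HP G) (h3 : ∀ i, gen i ^ 3 = 1)
    {tw : List (List ℕ)} (t : OK goals tw) (htw : ∀ w ∈ tw, ev gen w ^ 3 = 1) :
    ∃ g ∈ goals, ev gen g ^ 3 = 1 := by
  induction t with
  | leaf tw sel d s g gw hg h =>
    refine ⟨gw, List.mem_of_getElem? hg, ?_⟩
    have h5 := check_sound (gen := gen) h ?_
    · rwa [ev_pw] at h5
    · intro r hr
      unfold relsOf at hr
      obtain ⟨p, _, rfl⟩ := List.mem_map.mp hr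
      rw [ev_pw, ev_red3 h3]
      apply ev_rot
      by_cases hp : p.1 < tw.length
      · have : tw.getD p.1 [] = tw[p.1] := by simp [List.getD, hp]
        rw [this]
        exact htw _ (List.getElem_mem hp)
      · have : tw.getD p.1 [] = [] := by
          simp [List.getD, not_lt.mp hp]
        rw [this]
        simp [ev]
  | node tw t1 t2 p a q b hab e1 e2 _ _ ih1 ih2 =>
    rw [Bool.and_eq_true] at hab
    obtain ⟨ha, hb⟩ := hab
    have ha' : ev gen a ^ 3 = 1 := htw a (by simpa using ha)
    have hb' : ev gen b ^ 3 = 1 := htw b (by simpa using hb)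
    have hw : ∀ b : List ℕ, ev gen (nodeWord p a q b) =
        ((ev gen p)⁻¹ * ev gen a * ev gen p) * ((ev gen q)⁻¹ * ev gen b * ev gen q) := by
      intro b
      unfold nodeWord
      rw [ev_red3 h3]
      simp only [ev_append, ev_irev, mul_assoc]
    rcases hP _ _ (cube_conj (c := ev gen p) ha') (cube_conj (c := ev gen q) hb') with h5 | h5
    · refine ih1 ?_
      rw [← e1]
      intro r hr'
      rcases List.mem_append.mp hr' with h6 | h6
      · exact htw r h6
      · rw [List.mem_singleton.mp h6, hw]; exact h5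
    · refine ih2 ?_
      rw [← e2]
      intro r hr'
      rcases List.mem_append.mp hr' with h6 | h6
      · exact htw r h6
      · rw [List.mem_singleton.mp h6, hw, ev_irev]
        have h7 : (ev gen p)⁻¹ * ev gen a * ev gen p * ((ev gen q)⁻¹ * (ev gen b)⁻¹ * ev gen q) =
          (ev gen p)⁻¹ * ev gen a * ev gen p * ((ev gen q)⁻¹ * ev gen b * ev gen q)⁻¹ := by group
        rw [h7]; exact h5

end H242.P3
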