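import Pool.Agent.H242P3.Fin

/-!
Powers of two: if products or quotients of elements with `x ^ (2 ^ j) = 1` have the same property,
then the subgroup generated by these elements is locally finite.
-/

universe u

namespace H242.P3.Two

open Subgroup

variable {G : Type u} [Group G]

/-- the subgroup generated by the elements with `x ^ k = 1` -/
def T (G : Type u) [Group G] (k : ℕ) : Subgroup G := closure {x : G | x ^ k = 1}

/-- `xy` or `xy⁻¹` has trivial `k`-th power when `x` and `y` have -/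
def PQ (G : Type u) [Group G] (k : ℕ) : Prop :=
  ∀ x y : G, x ^ k = 1 → y ^ k = 1 → (x * y) ^ k = 1 ∨ (x * y⁻¹) ^ k = 1

theorem T_normal (k : ℕ) : (T G k).Normal := by
  refine ⟨fun n hn g => ?_⟩
  unfold T at *
  induction hn using closure_induction with
  | mem t ht =>
    refine Subgroup.subset_closure ?_
    have ht' : t ^ k = 1 := ht
    show (g * t * g⁻¹) ^ k = 1
    rw [conj_pow, ht']; simp
  | one => simp [one_mem]
  | mul a b _ _ ha hb =>
    have : g * (a * b) * g⁻¹ = (g * a * g⁻¹) * (g * b * g⁻¹) := by group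
    rw [this]; exact mul_mem ha hb
  | inv a _ ha =>
    have : g * a⁻¹ * g⁻¹ = (g * a * g⁻¹)⁻¹ := by group
    rw [this]; exact inv_mem ha

theorem pow_comm4 {a b : G} {k : ℕ} (h : (a * b) ^ k = 1) : (b * a) ^ k = 1 :=
  H15.Struct.pow_comm_one h

/-- right multiplication by elements of `T 2` preserves `y ^ 4 = 1` -/
theorem mul_T2 (h : ∀ d y : G, d ^ 2 = 1 → y ^ 4 = 1 → (d * y) ^ 4 = 1) {t : G}
    (ht : t ∈ T G 2) : ∀ y : G, y ^ 4 = 1 → (y * t) ^ 4 = 1 := by
  unfold T at ht
  induction ht using closure_induction with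
  | mem d hd => intro y hy; exact pow_comm4 (h d y hd hy)
  | one => intro y hy; rwa [mul_one]
  | mul a b _ _ ha hb => intro y hy; rw [← mul_assoc]; exact hb _ (ha y hy)
  | inv a _ ha =>
    intro y hy
    have h1 := ha y⁻¹ (by rw [inv_pow, hy, inv_one])
    have h2 : (a⁻¹ * y) ^ 4 = 1 := by
      have : a⁻¹ * y = (y⁻¹ * a)⁻¹ := by group
      rw [this, inv_pow, h1, inv_one]
    exact pow_comm4 h2

theorem T2_exp4 (h : ∀ d y : G, d ^ 2 = 1 → y ^ 4 = 1 → (d * y) ^ 4 = 1) {t : G}
    (ht : t ∈ T G 2) : t ^ 4 = 1 := by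
  have := mul_T2 h ht 1 (one_pow 4)
  rwa [one_mul] at this

/-- all finitely generated subgroups are finite -/
def LF (N : Subgroup G) : Prop := ∀ F : Subgroup G, F.FG → F ≤ N → Finite F

theorem lf_T2 (h : ∀ d y : G, d ^ 2 = 1 → y ^ 4 = 1 → (d * y) ^ 4 = 1) : LF (T G 2) := by
  intro F hF hFT
  refine H15.Struct.finite_exp4 ((Group.fg_iff_subgroup_fg F).mpr hF) ?_
  intro g
  ext
  exact_mod_cast T2_exp4 h (hFT g.2)

/-- extensions: `N` normal and locally finite, and a finitely generated `F` with `F/(F ∩ N)`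
finite -/
theorem fin_ext {N F : Subgroup G} (hN : LF N) (hF : F.FG)
    (hq : Finite (F ⧸ N.subgroupOf F)) : Finite F := by
  have hFfg : Group.FG F := (Group.fg_iff_subgroup_fg F).mpr hF
  have hfi : (N.subgroupOf F).FiniteIndex := Subgroup.finiteIndex_of_finite_quotient
  have hfg : Group.FG (N.subgroupOf F) := Subgroup.fg_of_index_ne_zero _
  have hfin : Finite (N.subgroupOf F) := by
    have hfg2 : ((N.subgroupOf F).map F.subtype).FG := by
      classical
      obtain ⟨S, hS⟩ := (Group.fg_iff_subgroup_fg _).mp hfg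
      exact ⟨S.image F.subtype, by rw [Finset.coe_image, ← MonoidHom.map_closure, hS]⟩
    have h1 : Finite ((N.subgroupOf F).map F.subtype : Subgroup G) := by
      refine hN _ hfg2 ?_
      rintro _ ⟨x, hx, rfl⟩
      exact hx
    exact Finite.of_equiv _ ((N.subgroupOf F).equivMapOfInjective F.subtype
      F.subtype_injective).symm.toEquiv
  exact H15.Struct.finite_of_index _ hfi.index_ne_zero hfin

/-- the inductive step -/
theorem lf_step (l : ℕ) (hP : PQ G (2 * l)) (hl : LF (T G l)) : LF (T G (2 * l)) := by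
  have hn : (T G l).Normal := T_normal l
  let π : G →* G ⧸ T G l := QuotientGroup.mk' (T G l)
  have hπ : ∀ g : G, g ^ (2 * l) = 1 → (π g) ^ 2 = 1 := by
    intro g hg
    rw [← map_pow]
    show (QuotientGroup.mk (g ^ 2) : G ⧸ T G l) = 1
    rw [QuotientGroup.eq_one_iff]
    refine Subgroup.subset_closure ?_
    show (g ^ 2) ^ l = 1
    rw [← pow_mul]; exact hg
  have hcomm : ∀ x y : G, x ^ (2 * l) = 1 → y ^ (2 * l) = 1 → Commute (π x) (π y) := by
    intro x y hx hy
    have hx2 := hπ x hx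
    have hy2 := hπ y hy
    have hyi : (π y)⁻¹ = π y := by
      rw [inv_eq_iff_mul_eq_one, ← pow_two]; exact hy2
    have hxi : (π x)⁻¹ = π x := by
      rw [inv_eq_iff_mul_eq_one, ← pow_two]; exact hx2
    have h3 : (π x * π y) ^ 2 = 1 := by
      rcases hP x y hx hy with h | h
      · have := hπ _ h
        rwa [map_mul] at this
      · have := hπ _ h
        rwa [map_mul, map_inv, hyi] at this
    have h4 : (π x * π y)⁻¹ = π x * π y := by
      rw [inv_eq_iff_mul_eq_one, ← pow_two]; exact h3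
    rw [mul_inv_rev, hyi, hxi] at h4
    exact h4.symm
  have hT : (T G (2 * l)).map π = closure (π '' {x : G | x ^ (2 * l) = 1}) :=
    MonoidHom.map_closure π _
  have hcomm' : ∀ a ∈ (T G (2 * l)).map π, ∀ b ∈ (T G (2 * l)).map π, Commute a b := by
    intro a ha b hb
    rw [hT] at ha hb
    refine closure_induction₂ (p := fun y z _ _ => Commute y z) ?_
      ?_ ?_ ?_ ?_ ?_ ?_ ha hb
    · rintro _ _ ⟨x, hx, rfl⟩ ⟨y, hy, rfl⟩
      exact hcomm x y hx hy
    · intro a _; exact Commute.one_left a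
    · intro a _; exact Commute.one_right a
    · intro a b c _ _ _ h3 h4; exact h3.mul_left h4
    · intro a b c _ _ _ h3 h4; exact h3.mul_right h4
    · intro a b _ _ h3; exact h3.inv_left
    · intro a b _ _ h3; exact h3.inv_right
  have hsq : ∀ a ∈ (T G (2 * l)).map π, a ^ 2 = 1 := by
    intro a ha
    rw [hT] at ha
    induction ha using closure_induction with
    | mem d hd => obtain ⟨g, hg, rfl⟩ := hd; exact hπ g hg
    | one => exact one_pow 2
    | mul a b hac hbc ha hb =>
      rw [← hT] at hac hbc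
      rw [(hcomm' a hac b hbc).mul_pow, ha, hb, one_mul]
    | inv a hac ha => rw [inv_pow, ha, inv_one]
  intro F hF hFT
  refine fin_ext hl hF ?_
  have hFfg : Group.FG F := (Group.fg_iff_subgroup_fg F).mpr hF
  have hnF : ((T G l).subgroupOf F).Normal := hn.subgroupOf F
  have hfgQ : Group.FG (F ⧸ (T G l).subgroupOf F) := QuotientGroup.fg _
  refine H15.Struct.finite_exp4 hfgQ ?_
  intro q
  obtain ⟨g, rfl⟩ := QuotientGroup.mk_surjective q
  rw [← QuotientGroup.mk_pow, QuotientGroup.eq_one_iff]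
  show ((g ^ 4 : F) : G) ∈ T G l
  have h1 : π (g : G) ^ 2 = 1 := hsq _ ⟨g, hFT g.2, rfl⟩
  have h2 : π ((g : G) ^ 4) = 1 := by
    rw [map_pow, show (4 : ℕ) = 2 * 2 from rfl, pow_mul, h1, one_pow]
  have h3 : (QuotientGroup.mk ((g : G) ^ 4) : G ⧸ T G l) = 1 := h2
  rw [QuotientGroup.eq_one_iff] at h3
  exact_mod_cast h3

theorem PQ4_mul (hP : PQ G 4) (d y : G) (hd : d ^ 2 = 1) (hy : y ^ 4 = 1) :
    (d * y) ^ 4 = 1 := by
  have hd4 : d ^ 4 = 1 := by rw [show (4 : ℕ) = 2 * 2 from rfl, pow_mul, hd, one_pow]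
  have hdi : d⁻¹ = d := by rw [inv_eq_iff_mul_eq_one, ← pow_two]; exact hd
  rcases hP y d hy hd4 with h | h
  · exact pow_comm4 h
  · rw [hdi] at h; exact pow_comm4 h

theorem lf_T (r : ℕ) (hr : 1 ≤ r) (hP : ∀ j, 2 ≤ j → j ≤ r + 1 → PQ G (2 ^ j)) :
    LF (T G (2 ^ (r + 1))) := by
  induction r, hr using Nat.le_induction with
  | base =>
    have h4 : PQ G 4 := hP 2 le_rfl le_rfl
    exact lf_step 2 h4 (lf_T2 (PQ4_mul h4))
  | succ r hr ih =>
    have h1 := ih (fun j hj hj' => hP j hj (by omega))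
    have e : 2 ^ (r + 1 + 1) = 2 * 2 ^ (r + 1) := by ring
    rw [e]
    refine lf_step _ ?_ h1
    rw [← e]
    exact hP (r + 1 + 1) (by omega) le_rfl

/-- the last step -/
theorem fin_last (k m : ℕ) (hT : LF (T G k))
    (hLF : ∀ (Q : Type u) [Group Q], Group.FG Q → (∀ q : Q, q ^ m = 1) → Finite Q)
    (h : ∀ g : G, g ^ (k * m) = 1) (F : Subgroup G) (hF : F.FG) : Finite F := by
  refine fin_ext hT hF ?_
  have hn : (T G k).Normal := T_normal k
  have hFfg : Group.FG F := (Group.fg_iff_subgroup_fg F).mpr hF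
  have hnF : ((T G k).subgroupOf F).Normal := hn.subgroupOf F
  have hfgQ : Group.FG (F ⧸ (T G k).subgroupOf F) := QuotientGroup.fg _
  refine hLF _ hfgQ ?_
  intro q
  obtain ⟨g, rfl⟩ := QuotientGroup.mk_surjective q
  rw [← QuotientGroup.mk_pow, QuotientGroup.eq_one_iff]
  show ((g ^ m : F) : G) ∈ T G k
  refine Subgroup.subset_closure ?_
  show ((g ^ m : F) : G) ^ k = 1
  have := h g
  push_cast
  rw [← pow_mul, mul_comm]
  exact this

end H242.P3.Two
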